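import Mathlib
import Pool.Agent.N419.StarDec

/-!
The conjecture of Barát, Gerbner and Thomassé for stars: a simple graph with `m` edge-disjoint
spanning trees whose number of edges is divisible by `m` decomposes into stars with `m` edges.
-/

set_option autoImplicit false

namespace Pool.Agent.Results.MP_1c8ed6_co.Stars

/-- Let `T` be a star (a finite tree with a vertex adjacent to all others) with `m` edges. Every
finite simple graph `G` that contains `m` edge-disjoint spanning trees and whose number of edges is
divisible by `m` has its edges partitioned into copies of `T`. -/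
theorem result :
    ∀ {V : Type} [Fintype V] [DecidableEq V] (G : SimpleGraph V) [DecidableRel G.Adj]
      {W : Type} [Fintype W] [DecidableEq W] (T : SimpleGraph W) [DecidableRel T.Adj],
      T.IsTree → (∃ c : W, ∀ w, w ≠ c → T.Adj c w) →
      (∃ F : Fin T.edgeFinset.card → SimpleGraph V,
          (∀ i, F i ≤ G ∧ (F i).IsTree) ∧
          Pairwise (fun i j => Disjoint (F i) (F j))) →
      T.edgeFinset.card ∣ G.edgeFinset.card →
      ∃ (n : ℕ) (H : Fin n → G.Subgraph),
        (∀ i, Nonempty (T ≃g (H i).coe)) ∧
        Pairwise (fun i j => Disjoint (H i).edgeSet (H j).edgeSet) ∧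
        (∀ e ∈ G.edgeSet, ∃ i, e ∈ (H i).edgeSet) := by
  rintro V _ _ G _ W _ _ T _ hT ⟨c, hc⟩ ⟨F, hF, hd⟩ hdvd
  exact Pool.Agent.N419.StarDec.star_decomposition G T hT c hc F
    (fun i => ⟨(hF i).1, (hF i).2.1⟩) hd hdvd

end Pool.Agent.Results.MP_1c8ed6_co.Stars
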